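import Pool.Agent.W890.SF.Stm

set_option autoImplicit false

namespace Pool.Agent.W584.SAM

open Finset Pool.Agent.W890.SF

lemma Wt_nonneg {ι : Type} [DecidableEq ι] (q : ι → ℝ) (T ω : Finset ι)
    (hq : ∀ i ∈ T, 0 ≤ q i ∧ q i < 1) (hω : ω ⊆ T) : 0 ≤ Wt q T ω := by
  unfold Wt
  apply mul_nonneg
  · exact Finset.prod_nonneg fun i hi => (hq i (hω hi)).1
  · exact Finset.prod_nonneg fun i hi => by
      have := (hq i (Finset.mem_sdiff.mp hi).1).2
      linarith

lemma Wt_out {ι : Type} [DecidableEq ι] (q : ι → ℝ) (T ω : Finset ι) (x : ι) (hx : x ∉ T)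
    (hω : ω ⊆ T) : Wt q (insert x T) ω = (1 - q x) * Wt q T ω := by
  unfold Wt
  have hxω : x ∉ ω := fun h => hx (hω h)
  rw [Finset.insert_sdiff_of_notMem _ hxω,
    Finset.prod_insert (fun h => hx (Finset.mem_sdiff.mp h).1)]
  ring

lemma Wt_in {ι : Type} [DecidableEq ι] (q : ι → ℝ) (T ω : Finset ι) (x : ι) (hx : x ∉ T)
    (hω : ω ⊆ T) : Wt q (insert x T) (insert x ω) = q x * Wt q T ω := by
  unfold Wt
  have hxω : x ∉ ω := fun h => hx (hω h)
  have h1 : insert x T \ insert x ω = T \ ω := by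
    ext y
    simp only [Finset.mem_sdiff, Finset.mem_insert, not_or]
    constructor
    · rintro ⟨h1 | h1, h2, h3⟩
      · exact absurd h1 h2
      · exact ⟨h1, h3⟩
    · rintro ⟨h1, h2⟩
      exact ⟨Or.inr h1, fun h => hx (h ▸ h1), h2⟩
  rw [h1, Finset.prod_insert hxω]
  ring

theorem add : S_ADD := by
  intro ι _ b q c S x hc hS hx
  obtain ⟨T, hT, hTx⟩ : ∃ T, S = insert x T ∧ x ∉ T :=
    ⟨S.erase x, (Finset.insert_erase hx).symm, Finset.notMem_erase x S⟩
  subst hT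
  rw [Finset.erase_insert hTx]
  have hb := (hS x hx).1
  have hq0 := (hS x hx).2.1
  have hq1 := (hS x hx).2.2
  have hTq : ∀ i ∈ T, 0 ≤ q i ∧ q i < 1 := fun i hi =>
    (hS i (Finset.mem_insert_of_mem hi)).2
  unfold PG PU
  rw [Finset.sum_powerset_insert hTx, Finset.mul_sum, ← Finset.sum_sub_distrib,
    ← Finset.sum_add_distrib]
  refine Finset.sum_le_sum fun ω hω => ?_
  have hω' : ω ⊆ T := Finset.mem_powerset.mp hω
  have hxω : x ∉ ω := fun h => hTx (hω' h)
  have hW := Wt_nonneg q T ω hTq hω'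
  rw [Wt_out q T ω x hTx hω', Wt_in q T ω x hTx hω', Finset.sum_insert hxω]
  set s := ∑ i ∈ ω, b i with hs
  set W := Wt q T ω with hWd
  by_cases h1 : s < c
  · rw [if_pos h1, if_pos h1, if_pos h1]
    by_cases h2 : b x + s < c
    · rw [if_pos h2]
      nlinarith
    · rw [if_neg h2]
      have h3 : c - s ≤ b x := by linarith
      have h4 : 0 ≤ q x * W := mul_nonneg hq0 hW
      nlinarith
  · rw [if_neg h1, if_neg h1, if_neg h1, if_neg (by linarith)]
    simp

end Pool.Agent.W584.SAM
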